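import Pool.Agent.H810R3.Sx.Pts

set_option autoImplicit false

/-! Affine Baire extensions on `XX I`. -/

namespace Pool.Agent.H810R3.Sx

open MeasureTheory Set Filter Topology

section
variable {Y : Type*} [TopologicalSpace Y]

theorem IsBaire.add_cont {f g : Y → ℝ} (hf : IsBaire f) (hg : Continuous g) :
    IsBaire (fun y => f y + g y) := by
  induction hf with
  | cont f hf => exact .cont _ (hf.add hg)
  | lim f g' hf h ih => exact .lim (fun n y => f n y + g y) _ ih (fun y => (h y).add_const _)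

theorem IsBaire.add {f g : Y → ℝ} (hf : IsBaire f) (hg : IsBaire g) :
    IsBaire (fun y => f y + g y) := by
  induction hg with
  | cont g hg => exact hf.add_cont hg
  | lim g g' hg h ih => exact .lim (fun n y => f y + g n y) _ ih (fun y => (h y).const_add _)

theorem IsBaire.const_mul {f : Y → ℝ} (hf : IsBaire f) (a : ℝ) : IsBaire (fun y => a * f y) := by
  induction hf with
  | cont f hf => exact .cont _ (continuous_const.mul hf)
  | lim f g hf h ih => exact .lim (fun n y => a * f n y) _ ih (fun y => (h y).const_mul _)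

theorem IsBaire.measurable_borel {f : Y → ℝ} (hf : IsBaire f) : @Measurable Y ℝ (borel Y) _ f := by
  letI : MeasurableSpace Y := borel Y
  haveI : BorelSpace Y := ⟨rfl⟩
  induction hf with
  | cont f hf => exact hf.measurable
  | lim f g hf h ih => exact measurable_of_tendsto_metrizable ih (tendsto_pi_nhds.2 h)

end

variable {I : Type*}

theorem baire_int {φ : (I → ℕ) → ℝ} (hφ : Measurable φ) {C : ℝ} (hC : ∀ ω, |φ ω| ≤ C) :
    IsBaire (fun x : XX I => ∫ ω, φ ω ∂(nu x)) := by
  refine mono_of (Q := fun φ => IsBaire (fun x : XX I => ∫ ω, φ ω ∂(nu x))) ?_ ?_ ?_ hφ hC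
  · intro f g a b C D h1 h2 k1 k2 h3 k3
    have e : (fun x : XX I => ∫ ω, (a * f ω + b * g ω) ∂(nu x)) = fun x : XX I =>
        a * ∫ ω, f ω ∂(nu x) + b * ∫ ω, g ω ∂(nu x) := by
      funext x
      rw [integral_add ((integrable_bdd _ h1 h2).const_mul a) ((integrable_bdd _ k1 k2).const_mul b),
        integral_const_mul, integral_const_mul]
    rw [e]
    exact (h3.const_mul a).add (k3.const_mul b)
  · intro f g C h1 h2 h3 h4 h5
    exact .lim _ _ h2 fun x => lim_int (nu x) h1 h3 h4
  · intro s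
    have : (fun x : XX I => ∫ ω, h s ω ∂(nu x)) = fun x : XX I => (x : (I →₀ ℕ) → ℝ) s := by
      funext x; exact nu_spec x s
    rw [this]
    exact .cont _ ((continuous_apply s).comp continuous_subtype_val)

theorem XX_ext : HasAffineBaireExtension (XX I) := by
  rintro g hg ⟨C, hC⟩
  let g' : (I → ℕ) → ℝ := fun ω => g ⟨io ω, io_extreme ω⟩
  have hg' : Continuous g' := hg.comp (io_continuous.subtype_mk _)
  have hm : Measurable g' := measurable_of_cont hg'
  have hb : ∀ ω, |g' ω| ≤ C := fun ω => hC _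
  refine ⟨fun x => ∫ ω, g' ω ∂(nu x), baire_int hm hb, ?_, ?_⟩
  · intro x y z t h0 h1 hz
    refine lin_rel _ _ _ _ _ (fun s => ?_) hm hb
    rw [nu_spec, nu_spec, nu_spec, hz]
    rfl
  · rintro ⟨x, hx⟩
    obtain ⟨ω, rfl⟩ := extreme_io hx
    show ∫ ρ, g' ρ ∂(nu ⟨io ω, io_mem ω⟩) = _
    rw [nu_io, integral_dirac' _ _ hm.stronglyMeasurable]

end Pool.Agent.H810R3.Sx
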