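import Pool.Agent.H810R3.Sx.Push

set_option autoImplicit false

/-! `XX I` is compact. -/

namespace Pool.Agent.H810R3.Sx

open MeasureTheory Set Filter Topology
open scoped ENNReal

/-- Product of one point compactifications of `ℕ`, with its Borel sets. -/
def KK (I : Type*) := I → OnePoint ℕ

variable {I : Type*}

instance : TopologicalSpace (KK I) := inferInstanceAs (TopologicalSpace (I → OnePoint ℕ))
instance : CompactSpace (KK I) := inferInstanceAs (CompactSpace (I → OnePoint ℕ))
instance : T2Space (KK I) := inferInstanceAs (T2Space (I → OnePoint ℕ))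
instance : MeasurableSpace (KK I) := borel _
instance : BorelSpace (KK I) := ⟨rfl⟩

/-- Extension of `c`. -/
noncomputable def cc (m : ℕ) (x : OnePoint ℕ) : ℝ := x.elim (if m = 0 then 1 else 0) (c m)

theorem cc_some (m n : ℕ) : cc m (n : OnePoint ℕ) = c m n := rfl

theorem cc_infty (m : ℕ) : cc m (OnePoint.infty) = if m = 0 then 1 else 0 := rfl

theorem cc_continuous (m : ℕ) : Continuous (cc m) := by
  rw [OnePoint.continuous_iff_from_nat]
  refine tendsto_const_nhds.congr' ?_
  filter_upwards [eventually_gt_atTop (m + 1)] with n hn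
  rw [cc_some, cc_infty]
  unfold c
  split_ifs <;> first | rfl | omega | simp

/-- extended monomials -/
noncomputable def hh (s : I →₀ ℕ) (κ : KK I) : ℝ := s.prod fun i k => cc k (κ i)

theorem hh_continuous (s : I →₀ ℕ) : Continuous (hh s) := by
  unfold hh Finsupp.prod
  refine continuous_finsetProd _ fun i _ => ?_
  exact (cc_continuous (s i)).comp (continuous_apply (A := fun _ : I => OnePoint ℕ) i)

/-- inclusion -/
def jj (ω : I → ℕ) : KK I := fun i => (ω i : OnePoint ℕ)

theorem jj_continuous : Continuous (jj : (I → ℕ) → KK I) :=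
  continuous_pi fun i => OnePoint.continuous_coe.comp (continuous_apply i)

theorem hh_jj (s : I →₀ ℕ) (ω : I → ℕ) : hh s (jj ω) = h s ω := rfl

/-- fair coin -/
noncomputable def coin : Measure ℕ := (2⁻¹ : ℝ≥0∞) • (Measure.dirac 0 + Measure.dirac 1)

instance : IsProbabilityMeasure coin := by
  constructor
  simp only [coin, Measure.coe_smul, Measure.coe_add, Pi.smul_apply, Pi.add_apply, measure_univ,
    smul_eq_mul]
  rw [one_add_one_eq_two]
  exact ENNReal.inv_mul_cancel two_ne_zero ENNReal.ofNat_ne_top

theorem integral_coin (f : ℕ → ℝ) : ∫ n, f n ∂coin = (f 0 + f 1) / 2 := by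
  have hi : ∀ n, Integrable f (Measure.dirac n) := by
    intro n
    refine (integrable_const (|f n|)).mono' (measurable_of_countable f).aestronglyMeasurable ?_
    rw [ae_dirac_eq]
    simp
  rw [coin, integral_smul_measure, integral_add_measure (hi 0) (hi 1), integral_dirac, integral_dirac]
  simp
  ring

/-- random filling -/
noncomputable def fill (p : KK I × (I → ℕ)) : I → ℕ := fun i => (p.1 i).elim (p.2 i) id

theorem fill_measurable : Measurable (fill : KK I × (I → ℕ) → (I → ℕ)) := by
  refine measurable_pi_iff.2 fun i => ?_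
  refine measurable_to_countable' fun n => ?_
  have hcl : ∀ x : OnePoint ℕ, MeasurableSet {κ : KK I | κ i = x} := by
    intro x
    have : IsClosed {κ : KK I | κ i = x} :=
      isClosed_eq (continuous_apply (A := fun _ : I => OnePoint ℕ) i) continuous_const
    exact this.measurableSet
  have : (fun p : KK I × (I → ℕ) => fill p i) ⁻¹' {n} =
      (Prod.fst ⁻¹' {κ : KK I | κ i = (n : OnePoint ℕ)}) ∪
      ((Prod.fst ⁻¹' {κ : KK I | κ i = OnePoint.infty}) ∩ (Prod.snd ⁻¹' {ω : I → ℕ | ω i = n})) := by
    ext ⟨κ, u⟩
    simp only [mem_preimage, mem_singleton_iff, mem_union, mem_inter_iff, mem_ofPred_eq, fill]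
    induction hx : κ i with
    | infty => simp
    | coe m => simp
  rw [this]
  exact (measurable_fst (hcl _)).union ((measurable_fst (hcl _)).inter
    (measurable_snd (measurableSet_eq_fun (measurable_pi_apply i) measurable_const)))

theorem integral_fill (s : I →₀ ℕ) (κ : KK I) :
    ∫ u, h s (fill (κ, u)) ∂(Measure.infinitePi (fun _ : I => coin)) = hh s κ := by
  classical
  have h1 : ∀ u : I → ℕ, h s (fill (κ, u)) =
      (fun y : (s.support → ℕ) => ∏ i : s.support, c (s i) ((κ i).elim (y i) id)) (s.support.restrict u) := by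
    intro u
    unfold h Finsupp.prod
    rw [← Finset.prod_coe_sort s.support (fun i => c (s i) (fill (κ, u) i))]
    rfl
  simp only [h1]
  rw [integral_restrict_infinitePi (μ := fun _ : I => coin)
    (f := fun y : (s.support → ℕ) => ∏ i : s.support, c (s i) ((κ i).elim (y i) id))]
  · rw [integral_fintype_prod_eq_prod (fun (i : s.support) (n : ℕ) => c (s i) ((κ i).elim n id))]
    unfold hh Finsupp.prod
    rw [← Finset.prod_coe_sort s.support (fun i => cc (s i) (κ i))]
    refine Finset.prod_congr rfl fun i _ => ?_
    rw [integral_coin]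
    induction hx : κ i with
    | infty =>
      rw [cc_infty]
      simp only [OnePoint.elim_infty]
      unfold c
      split_ifs <;> simp_all <;> omega
    | coe m =>
      rw [cc_some]
      simp only [OnePoint.elim_some, id]
      ring
  · exact (measurable_of_countable _).aestronglyMeasurable

/-- the map from probabilities on `KK I` -/
noncomputable def FF (μ : ProbabilityMeasure (KK I)) : (I →₀ ℕ) → ℝ := fun s => ∫ κ, hh s κ ∂(μ : Measure (KK I))

theorem FF_continuous : Continuous (FF : ProbabilityMeasure (KK I) → ((I →₀ ℕ) → ℝ)) := by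
  refine continuous_pi fun s => ?_
  exact ProbabilityMeasure.continuous_iff_forall_continuousMap_continuous_integral.1 continuous_id
    ⟨hh s, hh_continuous s⟩

theorem XX_eq : XX I = range (FF : ProbabilityMeasure (KK I) → ((I →₀ ℕ) → ℝ)) := by
  ext x
  constructor
  · rintro ⟨ν, hν, rfl⟩
    obtain ⟨μ, hμ, _, hint⟩ := exists_push (jj : (I → ℕ) → KK I) jj_continuous ν
    refine ⟨⟨μ, hμ⟩, ?_⟩
    funext s
    exact hint _ (hh_continuous s)
  · rintro ⟨μ, rfl⟩
    refine ⟨((μ : Measure (KK I)).prod (Measure.infinitePi (fun _ : I => coin))).map fill,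
      Measure.isProbabilityMeasure_map fill_measurable.aemeasurable, ?_⟩
    funext s
    show _ = ∫ ω, h s ω ∂_
    rw [integral_map fill_measurable.aemeasurable (h_measurable s).aestronglyMeasurable,
      integral_prod]
    · simp only [integral_fill]
      rfl
    · exact integrable_bdd _ ((h_measurable s).comp fill_measurable) (fun p => h_abs_le s _)

theorem XX_compact : IsCompact (XX I) := by
  rw [XX_eq]
  exact isCompact_range FF_continuous

end Pool.Agent.H810R3.Sx
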