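import Mathlib

set_option autoImplicit false

/-!
# Choquet simplices and affine Baire extensions: definitions

`X` is a subset (in the application compact and convex) of a real topological vector space `E`.
-/

namespace Pool.Agent.H810R3.Sx

open MeasureTheory Set Filter Topology

/-- `μ` is a Radon probability measure on the (compact Hausdorff) space `Y`: a regular Borel
probability measure. -/
def IsRadonProb {Y : Type*} [TopologicalSpace Y] (μ : @Measure Y (borel Y)) : Prop :=
  @IsProbabilityMeasure Y (borel Y) μ ∧ @Measure.Regular Y (borel Y) _ μ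

/-- The integral of `f` with respect to the Borel measure `μ` on `Y`. -/
noncomputable def integ {Y : Type*} [TopologicalSpace Y] (μ : @Measure Y (borel Y)) (f : Y → ℝ) : ℝ :=
  @integral Y ℝ _ _ (borel Y) μ f

section
variable {E : Type*} [AddCommGroup E] [Module ℝ E] [TopologicalSpace E]

/-- `x` is the barycenter of the measure `μ` on `X`: `∫ ℓ dμ = ℓ x` for every continuous linear
functional `ℓ` on `E`. -/
def IsBarycenter {X : Set E} (μ : @Measure X (borel X)) (x : E) : Prop :=
  ∀ ℓ : E →L[ℝ] ℝ, integ μ (fun y : X => ℓ y) = ℓ x

/-- The Choquet ordering: `∫ f dμ ≤ ∫ f dν` for every continuous convex function `f` on `X`. -/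
def ChoquetLE {X : Set E} (μ ν : @Measure X (borel X)) : Prop :=
  ∀ f : E → ℝ, ContinuousOn f X → ConvexOn ℝ X f →
    integ μ (fun y : X => f y) ≤ integ ν (fun y : X => f y)

/-- `μ` is a maximal Radon probability measure on `X` for the Choquet ordering. -/
def IsMaximalMeasure {X : Set E} (μ : @Measure X (borel X)) : Prop :=
  IsRadonProb μ ∧ ∀ ν : @Measure X (borel X), IsRadonProb ν → ChoquetLE μ ν → ν = μ

/-- `X` is a simplex: every point of `X` is the barycenter of exactly one maximal Radon probability
measure on `X`. -/
def IsSimplex (X : Set E) : Prop :=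
  ∀ x ∈ X, ∃! μ : @Measure X (borel X), IsMaximalMeasure μ ∧ IsBarycenter μ x

/-- `f` is an affine function on the convex set `X`. -/
def IsAffineOn {X : Set E} (f : X → ℝ) : Prop :=
  ∀ (x y z : X) (t : ℝ), 0 ≤ t → t ≤ 1 → (z : E) = t • (x : E) + (1 - t) • (y : E) →
    f z = t * f x + (1 - t) * f y

end

/-- Baire functions: the smallest family of real functions on `Y` which contains the continuous
functions and is closed under pointwise limits of sequences. -/
inductive IsBaire {Y : Type*} [TopologicalSpace Y] : (Y → ℝ) → Prop
  | cont (f : Y → ℝ) (hf : Continuous f) : IsBaire f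
  | lim (f : ℕ → Y → ℝ) (g : Y → ℝ) (hf : ∀ n, IsBaire (f n))
      (h : ∀ y, Tendsto (fun n => f n y) atTop (𝓝 (g y))) : IsBaire g

section
variable {E : Type*} [AddCommGroup E] [Module ℝ E] [TopologicalSpace E]

/-- Every bounded continuous real function on the set of extreme points of `X` is the restriction of
an affine Baire function on `X`. -/
def HasAffineBaireExtension (X : Set E) : Prop :=
  ∀ g : X.extremePoints ℝ → ℝ, Continuous g → (∃ C : ℝ, ∀ y, |g y| ≤ C) →
    ∃ f : X → ℝ, IsBaire f ∧ IsAffineOn f ∧
      ∀ y : X.extremePoints ℝ, f ⟨y, extremePoints_subset y.2⟩ = g y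

end

end Pool.Agent.H810R3.Sx
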