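import Mathlib

set_option autoImplicit false

/-! Continuous real functions on `I → ℕ` depend on countably many coordinates; in particular they
are measurable for the product sigma-algebra. -/

namespace Pool.Agent.H810R3.Sx

open MeasureTheory Set Filter Topology

variable {I : Type*}

/-- basic cylinder -/
def Cyl (d : Finset I × (I → ℕ)) : Set (I → ℕ) := {ω | ∀ i ∈ d.1, ω i = d.2 i}

theorem Cyl_nonempty (d : Finset I × (I → ℕ)) : (Cyl d).Nonempty := ⟨d.2, fun _ _ => rfl⟩

theorem Cyl_measurable (d : Finset I × (I → ℕ)) : MeasurableSet (Cyl d) := by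
  have : Cyl d = ⋂ i ∈ d.1, {ω : I → ℕ | ω i = d.2 i} := by
    ext ω; simp [Cyl]
  rw [this]
  exact Finset.measurableSet_biInter _ fun i _ =>
    measurableSet_eq_fun (measurable_pi_apply i) measurable_const

/-- a probability measure on `ℕ` charging all points -/
theorem exists_full : ∃ m : Measure ℕ, IsProbabilityMeasure m ∧ ∀ n, 0 < m {n} := by
  refine ⟨ProbabilityTheory.poissonMeasure 1, inferInstance, fun n => ?_⟩
  have := ProbabilityTheory.poissonMeasure_real_singleton_pos (r := 1) n one_pos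
  rw [Measure.real, ENNReal.toReal_pos_iff] at this
  exact this.1

theorem ccc {U : Set (Finset I × (I → ℕ))} (hU : U.PairwiseDisjoint Cyl) : U.Countable := by
  obtain ⟨m, hm, hpos⟩ := exists_full
  have h1 := Measure.countable_meas_pos_of_disjoint_iUnion
    (μ := Measure.infinitePi (fun _ : I => m)) (As := fun d : U => Cyl d.1)
    (fun d => Cyl_measurable d.1) (by
      intro a b hab
      exact hU a.2 b.2 (fun h => hab (Subtype.ext h)))
  have h2 : {d : U | 0 < Measure.infinitePi (fun _ : I => m) (Cyl d.1)} = univ := by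
    ext d
    simp only [mem_setOf_eq, mem_univ, iff_true]
    have : Cyl d.1 = Set.pi d.1.1 (fun i => {d.1.2 i}) := by
      ext ω; simp [Cyl, Set.pi]
    rw [this, Measure.infinitePi_pi _ (fun _ _ => measurableSet_singleton _)]
    rw [pos_iff_ne_zero, Finset.prod_ne_zero_iff]
    exact fun i _ => (hpos _).ne'
  rw [h2] at h1
  exact (countable_coe_iff.1 (countable_univ_iff.1 h1))

/-- small cylinders around a point -/
theorem exists_cyl {g : (I → ℕ) → ℝ} (hg : Continuous g) (ω : I → ℕ) {ε : ℝ} (hε : 0 < ε) :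
    ∃ S : Finset I, ∀ T : Finset I, S ⊆ T → ∀ ω' ∈ Cyl (T, ω), |g ω' - g ω| < ε := by
  have h1 : g ⁻¹' (Metric.ball (g ω) ε) ∈ 𝓝 ω := hg.continuousAt (Metric.ball_mem_nhds _ hε)
  rw [nhds_pi, Filter.mem_pi'] at h1
  obtain ⟨S, t, ht, hsub⟩ := h1
  refine ⟨S, fun T hST ω' hω' => ?_⟩
  have : ω' ∈ g ⁻¹' (Metric.ball (g ω) ε) := by
    apply hsub
    intro i hi
    have : ω' i = ω i := hω' i (hST hi)
    rw [this]
    exact mem_of_mem_nhds (ht i)
  simpa [Real.dist_eq] using this

theorem dep_eps {g : (I → ℕ) → ℝ} (hg : Continuous g) {ε : ℝ} (hε : 0 < ε) :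
    ∃ J : Set I, J.Countable ∧ ∀ ω ω' : I → ℕ, (∀ i ∈ J, ω i = ω' i) → |g ω - g ω'| < 4 * ε := by
  classical
  -- cylinders of small oscillation
  let Pr : Finset I × (I → ℕ) → Prop := fun d => ∀ ω ∈ Cyl d, |g ω - g d.2| < ε
  obtain ⟨U, hU⟩ := zorn_subset {U : Set (Finset I × (I → ℕ)) | U.PairwiseDisjoint Cyl ∧ ∀ d ∈ U, Pr d}
    (by
      intro C hC hchain
      refine ⟨⋃₀ C, ⟨?_, ?_⟩, fun s hs => subset_sUnion_of_mem hs⟩
      · exact (pairwiseDisjoint_sUnion hchain.directedOn).2 fun s hs => (hC hs).1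
      · rintro d ⟨s, hs, hd⟩
        exact (hC hs).2 d hd)
  obtain ⟨⟨hdis, hPr⟩, hmax⟩ := hU
  refine ⟨⋃ d ∈ U, (d.1 : Set I), (ccc hdis).biUnion fun d _ => d.1.countable_toSet, ?_⟩
  intro ω ω' hωω'
  obtain ⟨S1, hS1⟩ := exists_cyl hg ω hε
  obtain ⟨S2, hS2⟩ := exists_cyl hg ω' hε
  set T := S1 ∪ S2 with hT
  -- some member of U meets Cyl (T, ω)
  have hmeet : ∃ d ∈ U, (Cyl d ∩ Cyl (T, ω)).Nonempty := by
    by_contra hcon
    push Not at hcon
    have h3 : (T, ω) ∉ U := by
      intro h4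
      have := hcon _ h4
      rw [inter_self] at this
      exact (Cyl_nonempty (T, ω)).ne_empty this
    have h5 : insert (T, ω) U ∈ {U : Set (Finset I × (I → ℕ)) | U.PairwiseDisjoint Cyl ∧ ∀ d ∈ U, Pr d} := by
      constructor
      · refine hdis.insert fun d hd _ => ?_
        rw [Set.disjoint_iff_inter_eq_empty, inter_comm]
        exact hcon d hd
      · intro d hd
        rcases hd with rfl | hd
        · exact fun ω'' h6 => hS1 T Finset.subset_union_left ω'' h6
        · exact hPr d hd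
    exact h3 (hmax h5 (subset_insert _ _) (mem_insert _ _))
  obtain ⟨d, hdU, u, hu1, hu2⟩ := hmeet
  -- the same member meets Cyl (T, ω')
  set w : I → ℕ := fun i => if i ∈ d.1 then d.2 i else ω' i with hw
  have hwd : w ∈ Cyl d := fun i hi => by simp [hw, hi]
  have hwT : w ∈ Cyl (T, ω') := by
    intro i hi
    by_cases hid : i ∈ d.1
    · simp only [hw, hid, if_true]
      have e1 : u i = d.2 i := hu1 i hid
      have e2 : u i = ω i := hu2 i hi
      have e3 : ω i = ω' i := hωω' i (mem_biUnion hdU hid)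
      rw [← e1, e2, e3]
    · simp [hw, hid]
  have k1 := hS1 T Finset.subset_union_left u hu2
  have k2 := hS2 T Finset.subset_union_right w hwT
  have k3 := hPr d hdU u hu1
  have k4 := hPr d hdU w hwd
  rw [abs_lt] at *
  constructor <;> linarith

theorem dep {g : (I → ℕ) → ℝ} (hg : Continuous g) :
    ∃ J : Set I, J.Countable ∧ ∀ ω ω' : I → ℕ, (∀ i ∈ J, ω i = ω' i) → g ω = g ω' := by
  have : ∀ k : ℕ, ∃ J : Set I, J.Countable ∧ ∀ ω ω' : I → ℕ, (∀ i ∈ J, ω i = ω' i) →
      |g ω - g ω'| < 4 * (1 / ((k : ℝ) + 1)) := fun k => dep_eps hg (by positivity)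
  choose J hJ hJ' using this
  refine ⟨⋃ k, J k, countable_iUnion hJ, fun ω ω' h => ?_⟩
  have h1 : ∀ k : ℕ, |g ω - g ω'| ≤ 4 * (1 / ((k : ℝ) + 1)) := fun k =>
    (hJ' k ω ω' fun i hi => h i (mem_iUnion.2 ⟨k, hi⟩)).le
  have h2 : Tendsto (fun k : ℕ => 4 * (1 / ((k : ℝ) + 1))) atTop (𝓝 (4 * 0)) :=
    tendsto_one_div_add_atTop_nhds_zero_nat.const_mul 4
  have h3 := ge_of_tendsto' h2 h1
  have h4 : |g ω - g ω'| = 0 := le_antisymm (by simpa using h3) (abs_nonneg _)
  exact sub_eq_zero.1 (abs_eq_zero.1 h4)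

theorem measurable_of_cont {g : (I → ℕ) → ℝ} (hg : Continuous g) : Measurable g := by
  classical
  obtain ⟨J, hJ, hdep⟩ := dep hg
  have : Countable J := hJ.to_subtype
  let ext : (J → ℕ) → (I → ℕ) := fun x i => if hi : i ∈ J then x ⟨i, hi⟩ else 0
  have hext : Continuous ext := by
    refine continuous_pi fun i => ?_
    by_cases hi : i ∈ J
    · simp only [ext, hi, dif_pos]
      exact continuous_apply _
    · simp only [ext, hi, dif_neg, not_false_eq_true]
      exact continuous_const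
  have h1 : Measurable (g ∘ ext) := (hg.comp hext).measurable
  have h2 : g = (g ∘ ext) ∘ (fun ω (j : J) => ω j.1) := by
    funext ω
    apply hdep
    intro i hi
    simp [ext, hi]
  rw [h2]
  exact h1.comp (measurable_pi_lambda _ fun j => measurable_pi_apply _)

end Pool.Agent.H810R3.Sx
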