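import Pool.Agent.H810R3.Sx.Defs

set_option autoImplicit false

/-! Jensen's inequality for barycenters, and antisymmetry of the Choquet ordering. -/

namespace Pool.Agent.H810R3.Sx

open MeasureTheory Set Filter Topology
open scoped CompactlySupported

variable {E : Type*} [AddCommGroup E] [Module ℝ E] [TopologicalSpace E]

theorem integrable_radon {X : Set E} (hX : IsCompact X) (μ : @Measure X (borel X))
    (hμ : IsRadonProb μ) {f : X → ℝ} (hf : Continuous f) : letI : MeasurableSpace X := borel X; Integrable f μ := by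
  letI : MeasurableSpace X := borel X
  haveI : BorelSpace X := ⟨rfl⟩
  haveI : CompactSpace X := isCompact_iff_compactSpace.1 hX
  haveI : IsProbabilityMeasure μ := hμ.1
  exact hf.integrable_of_hasCompactSupport (HasCompactSupport.of_compactSpace _)

theorem integ_add {X : Set E} (hX : IsCompact X) (μ : @Measure X (borel X))
    (hμ : IsRadonProb μ) {f g : X → ℝ} (hf : Continuous f) (hg : Continuous g) :
    integ μ (fun y => f y + g y) = integ μ f + integ μ g := by
  letI : MeasurableSpace X := borel X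
  exact integral_add (integrable_radon hX μ hμ hf) (integrable_radon hX μ hμ hg)

theorem integ_sub {X : Set E} (hX : IsCompact X) (μ : @Measure X (borel X))
    (hμ : IsRadonProb μ) {f g : X → ℝ} (hf : Continuous f) (hg : Continuous g) :
    integ μ (fun y => f y - g y) = integ μ f - integ μ g := by
  letI : MeasurableSpace X := borel X
  exact integral_sub (integrable_radon hX μ hμ hf) (integrable_radon hX μ hμ hg)

theorem integ_const_mul {X : Set E} (μ : @Measure X (borel X)) (a : ℝ) (f : X → ℝ) :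
    integ μ (fun y => a * f y) = a * integ μ f := by
  letI : MeasurableSpace X := borel X
  exact integral_const_mul a f

theorem integ_const {X : Set E} (μ : @Measure X (borel X)) (hμ : IsRadonProb μ) (a : ℝ) :
    integ μ (fun _ => a) = a := by
  letI : MeasurableSpace X := borel X
  haveI : IsProbabilityMeasure μ := hμ.1
  show ∫ _ : X, a ∂μ = a
  simp

theorem integ_mono {X : Set E} (hX : IsCompact X) (μ : @Measure X (borel X))
    (hμ : IsRadonProb μ) {f g : X → ℝ} (hf : Continuous f) (hg : Continuous g) (hfg : ∀ y, f y ≤ g y) :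
    integ μ f ≤ integ μ g := by
  letI : MeasurableSpace X := borel X
  exact integral_mono (integrable_radon hX μ hμ hf) (integrable_radon hX μ hμ hg) hfg

theorem jensen [IsTopologicalAddGroup E] [ContinuousSMul ℝ E] [LocallyConvexSpace ℝ E] [T2Space E]
    {X : Set E} (hX : IsCompact X) (μ : @Measure X (borel X))
    (hμ : IsRadonProb μ) {z : E} (hz : z ∈ X) (hb : IsBarycenter μ z) {f : E → ℝ}
    (hf : ContinuousOn f X) (hf' : ConvexOn ℝ X f) : f z ≤ integ μ (fun y : X => f y) := by
  have hfc : Continuous (fun y : X => f y) := hf.restrict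
  refine le_of_forall_pos_le_add fun ε hε => ?_
  have hcl : IsClosed {p : E × ℝ | p.1 ∈ X ∧ f p.1 ≤ p.2} := hX.isClosed.epigraph hf
  have hcv : Convex ℝ {p : E × ℝ | p.1 ∈ X ∧ f p.1 ≤ p.2} := hf'.convex_epigraph
  obtain ⟨L, u, hL1, hL2⟩ := geometric_hahn_banach_point_closed hcv hcl (x := (z, f z - ε))
    (fun hmem => by
      have := hmem.2
      simp only at this
      linarith)
  have hsplit : ∀ (x : E) (t : ℝ), L (x, t) = L (x, 0) + t * L (0, 1) := by
    intro x t
    have : (x, t) = (x, (0 : ℝ)) + t • ((0 : E), (1 : ℝ)) := by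
      ext <;> simp
    rw [this, map_add, map_smul, smul_eq_mul]
  set β := L (0, 1) with hβ
  have hz2 := hL2 (z, f z) ⟨hz, le_rfl⟩
  rw [hsplit] at hL1 hz2
  have hβ0 : 0 < β := by
    have : 0 < ε * β := by nlinarith
    exact (pos_iff_pos_of_mul_pos this).1 hε
  let ℓ : E →L[ℝ] ℝ := L.comp (ContinuousLinearMap.inl ℝ E ℝ)
  have hℓ : ∀ x, ℓ x = L (x, 0) := fun x => rfl
  have hpt : ∀ y : X, u ≤ ℓ y + β * f y := by
    intro y
    have := hL2 (y, f y) ⟨y.2, le_rfl⟩
    rw [hsplit] at this
    rw [hℓ]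
    linarith
  have hℓc : Continuous (fun y : X => ℓ y) := ℓ.continuous.comp continuous_subtype_val
  have h1 : u ≤ ℓ z + β * integ μ (fun y : X => f y) := by
    calc u = integ μ (fun _ : X => u) := (integ_const μ hμ u).symm
      _ ≤ integ μ (fun y : X => ℓ y + β * f y) :=
        integ_mono hX μ hμ continuous_const (hℓc.add (continuous_const.mul hfc)) hpt
      _ = integ μ (fun y : X => ℓ y) + integ μ (fun y : X => β * f y) :=
        integ_add hX μ hμ hℓc (continuous_const.mul hfc)
      _ = ℓ z + β * integ μ (fun y : X => f y) := by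
        rw [hb ℓ, integ_const_mul]
  rw [hℓ] at h1
  have h2 : β * (f z - ε) < β * integ μ (fun y : X => f y) := by linarith
  have h3 := lt_of_mul_lt_mul_left h2 hβ0.le
  linarith

/-- Differences of continuous convex functions. -/
def DC (X : Set E) : Set C(X, ℝ) :=
  {F | ∃ f g : E → ℝ, (ContinuousOn f X ∧ ConvexOn ℝ X f) ∧ (ContinuousOn g X ∧ ConvexOn ℝ X g) ∧
    ∀ y : X, F y = f y - g y}

theorem DC_sup {X : Set E} {F G : C(X, ℝ)} (hF : F ∈ DC X) (hG : G ∈ DC X) : F ⊔ G ∈ DC X := by
  obtain ⟨f1, g1, ⟨a1, a2⟩, ⟨a3, a4⟩, a5⟩ := hF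
  obtain ⟨f2, g2, ⟨b1, b2⟩, ⟨b3, b4⟩, b5⟩ := hG
  refine ⟨(f1 + g2) ⊔ (f2 + g1), g1 + g2, ⟨(a1.add b3).sup (b1.add a3), (a2.add b4).sup (b2.add a4)⟩,
    ⟨a3.add b3, a4.add b4⟩, ?_⟩
  intro y
  simp only [ContinuousMap.sup_apply, Pi.sup_apply, Pi.add_apply, a5, b5]
  rw [← max_sub_sub_right]
  congr 1 <;> ring

theorem DC_neg {X : Set E} {F : C(X, ℝ)} (hF : F ∈ DC X) : -F ∈ DC X := by
  obtain ⟨f1, g1, h1, h2, h3⟩ := hF
  exact ⟨g1, f1, h2, h1, fun y => by simp [h3]⟩

theorem DC_inf {X : Set E} {F G : C(X, ℝ)} (hF : F ∈ DC X) (hG : G ∈ DC X) : F ⊓ G ∈ DC X := by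
  have := DC_neg (DC_sup (DC_neg hF) (DC_neg hG))
  convert this using 1
  ext y
  simp [← min_neg_neg]

theorem DC_affine {X : Set E} (hconv : Convex ℝ X) (ℓ : E →L[ℝ] ℝ) (b : ℝ) :
    (⟨fun y : X => ℓ y + b, (ℓ.continuous.comp continuous_subtype_val).add continuous_const⟩ : C(X, ℝ))
      ∈ DC X := by
  refine ⟨fun x => ℓ x + b, fun _ => 0, ⟨(ℓ.continuous.add continuous_const).continuousOn, ?_⟩,
    ⟨continuousOn_const, convexOn_const 0 hconv⟩, fun y => by simp⟩
  exact (ℓ.toLinearMap.convexOn hconv).add (convexOn_const b hconv)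

theorem choquet_antisymm [IsTopologicalAddGroup E] [ContinuousSMul ℝ E] [LocallyConvexSpace ℝ E]
    [T2Space E] {X : Set E} (hX : IsCompact X) (hconv : Convex ℝ X) (μ ρ : @Measure X (borel X))
    (hμ : IsRadonProb μ) (hρ : IsRadonProb ρ) (h1 : ChoquetLE μ ρ) (h2 : ChoquetLE ρ μ) : μ = ρ := by
  letI : MeasurableSpace X := borel X
  haveI : BorelSpace X := ⟨rfl⟩
  haveI : CompactSpace X := isCompact_iff_compactSpace.1 hX
  haveI : IsProbabilityMeasure μ := hμ.1
  haveI : IsProbabilityMeasure ρ := hρ.1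
  haveI : μ.Regular := hμ.2
  haveI : ρ.Regular := hρ.2
  have hDC : ∀ F ∈ DC X, ∫ y, F y ∂μ = ∫ y, F y ∂ρ := by
    rintro F ⟨f, g, ⟨a1, a2⟩, ⟨a3, a4⟩, a5⟩
    have e : (fun y : X => F y) = fun y : X => f y - g y := funext a5
    have c1 : Continuous (fun y : X => f y) := a1.restrict
    have c2 : Continuous (fun y : X => g y) := a3.restrict
    have k1 : integ μ (fun y : X => f y) = integ ρ (fun y : X => f y) :=
      le_antisymm (h1 f a1 a2) (h2 f a1 a2)
    have k2 : integ μ (fun y : X => g y) = integ ρ (fun y : X => g y) :=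
      le_antisymm (h1 g a3 a4) (h2 g a3 a4)
    have k3 : integ μ (fun y : X => f y - g y) = integ ρ (fun y : X => f y - g y) := by
      rw [integ_sub hX μ hμ c1 c2, integ_sub hX ρ hρ c1 c2, k1, k2]
    rw [e]
    exact k3
  have hcl : closure (DC X) = ⊤ := by
    apply ContinuousMap.sublattice_closure_eq_top
    · exact ⟨_, DC_affine hconv 0 0⟩
    · exact fun F hF G hG => DC_inf hF hG
    · exact fun F hF G hG => DC_sup hF hG
    · intro v x y
      by_cases hxy : x = y
      · subst hxy
        exact ⟨_, DC_affine hconv 0 (v x), by simp, by simp⟩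
      · have hne : (x : E) ≠ y := fun h => hxy (Subtype.ext h)
        obtain ⟨ℓ, hℓ⟩ := geometric_hahn_banach_point_point hne
        have hd : ℓ (y : E) - ℓ x ≠ 0 := by linarith
        refine ⟨_, DC_affine hconv (((v y - v x) / (ℓ (y : E) - ℓ x)) • ℓ)
          (v x - (v y - v x) / (ℓ (y : E) - ℓ x) * ℓ x), ?_, ?_⟩
        · simp
        · simp only [ContinuousMap.coe_mk, ContinuousLinearMap.smul_apply, smul_eq_mul]
          field_simp
          ring
  have hall : ∀ F : C(X, ℝ), ∫ y, F y ∂μ = ∫ y, F y ∂ρ := by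
    intro F
    have hF : F ∈ closure (DC X) := by rw [hcl]; trivial
    rw [Metric.mem_closure_iff] at hF
    by_contra hne
    have hpos : 0 < |∫ y, F y ∂μ - ∫ y, F y ∂ρ| := abs_pos.2 (sub_ne_zero.2 hne)
    obtain ⟨G, hG, hdist⟩ := hF _ (half_pos hpos)
    have hb : ∀ (m : Measure X) [IsProbabilityMeasure m], |∫ y, F y ∂m - ∫ y, G y ∂m| ≤ dist F G := by
      intro m _
      rw [← integral_sub]
      · have := norm_integral_le_of_norm_le_const (μ := m) (f := fun y => F y - G y) (C := dist F G)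
          (Eventually.of_forall fun y => by
            have := ContinuousMap.dist_apply_le_dist (f := F) (g := G) y
            rwa [Real.dist_eq] at this)
        simpa using this
      · exact F.continuous.integrable_of_hasCompactSupport (HasCompactSupport.of_compactSpace _)
      · exact G.continuous.integrable_of_hasCompactSupport (HasCompactSupport.of_compactSpace _)
    have b1 := hb μ
    have b2 := hb ρ
    have b3 := hDC G hG
    have b4 : |∫ y, F y ∂μ - ∫ y, F y ∂ρ| ≤ 2 * dist F G := by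
      have e : ∫ y, F y ∂μ - ∫ y, F y ∂ρ = (∫ y, F y ∂μ - ∫ y, G y ∂μ) - (∫ y, F y ∂ρ - ∫ y, G y ∂ρ) := by
        rw [b3]; ring
      rw [e]
      refine (abs_sub _ _).trans ?_
      linarith
    linarith
  exact Measure.ext_of_integral_eq_on_compactlySupported fun f => hall f.toContinuousMap

end Pool.Agent.H810R3.Sx
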