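import Mathlib

set_option autoImplicit false

/-! Monomials on `I → ℕ` and a monotone class argument. -/

namespace Pool.Agent.H810R3.Sx

open MeasureTheory Set Filter Topology

/-- `c 0 = 1`, `c 1 = 1_{0} - 1_{1}`, `c m = 1_{m}` for `m ≥ 2`. -/
noncomputable def c (m n : ℕ) : ℝ :=
  if m = 0 then 1 else if m = 1 then ((if n = 0 then 1 else 0) - (if n = 1 then 1 else 0))
    else if n = m then 1 else 0

theorem c_abs_le (m n : ℕ) : |c m n| ≤ 1 := by
  unfold c
  split_ifs <;> simp_all

@[simp] theorem c_zero (n : ℕ) : c 0 n = 1 := by simp [c]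

theorem c_one (n : ℕ) : c 1 n = (if n = 0 then 1 else 0) - (if n = 1 then 1 else 0) := by
  simp [c]

theorem c_two (m n : ℕ) : c (m + 2) n = if n = m + 2 then 1 else 0 := by
  simp [c]

variable {I : Type*}

/-- The monomial functions on `I → ℕ`. -/
noncomputable def h (s : I →₀ ℕ) (ω : I → ℕ) : ℝ := s.prod fun i k => c k (ω i)

theorem h_abs_le (s : I →₀ ℕ) (ω : I → ℕ) : |h s ω| ≤ 1 := by
  unfold h Finsupp.prod
  rw [Finset.abs_prod]
  exact Finset.prod_le_one (fun _ _ => abs_nonneg _) (fun i _ => c_abs_le _ _)

@[simp] theorem h_zero (ω : I → ℕ) : h 0 ω = 1 := by simp [h]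

theorem h_measurable (s : I →₀ ℕ) : Measurable (h s) := by
  unfold h Finsupp.prod
  refine Finset.measurable_prod _ fun i _ => ?_
  exact (measurable_of_countable (fun n : ℕ => c (s i) n)).comp (measurable_pi_apply i)

theorem h_continuous (s : I →₀ ℕ) : Continuous (h s) := by
  unfold h Finsupp.prod
  refine continuous_finsetProd _ fun i _ => ?_
  exact (continuous_of_discreteTopology (f := fun n : ℕ => c (s i) n)).comp (continuous_apply i)

theorem h_single (i : I) (m : ℕ) (ω : I → ℕ) : h (Finsupp.single i m) ω = c m (ω i) := by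
  unfold h
  rw [Finsupp.prod_single_index]
  simp

theorem h_add_single (s : I →₀ ℕ) (i : I) (hi : i ∉ s.support) (m : ℕ) (ω : I → ℕ) :
    h (s + Finsupp.single i m) ω = h s ω * c m (ω i) := by
  classical
  have : Disjoint s.support (Finsupp.single i m).support := by
    rw [Finset.disjoint_right]
    intro j hj
    have := Finsupp.support_single_subset hj
    simp at this
    subst this
    exact hi
  unfold h
  rw [Finsupp.prod_add_index_of_disjoint this, Finsupp.prod_single_index]
  simp

/-- A vector space of functions, closed under bounded sequential limits, containing all monomials. -/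
structure MonoClass (P : ((I → ℕ) → ℝ) → Prop) : Prop where
  lin : ∀ (f g : (I → ℕ) → ℝ) (a b : ℝ), P f → P g → P (fun ω => a * f ω + b * g ω)
  lim : ∀ (f : ℕ → (I → ℕ) → ℝ) (g : (I → ℕ) → ℝ) (C : ℝ), (∀ n, P (f n)) →
    (∀ n ω, |f n ω| ≤ C) → (∀ ω, Tendsto (fun n => f n ω) atTop (𝓝 (g ω))) → P g
  base : ∀ s, P (h s)

namespace MonoClass

variable {P : ((I → ℕ) → ℝ) → Prop} (hP : MonoClass P)
include hP

theorem const (a : ℝ) : P (fun _ => a) := by
  have := hP.lin _ _ a 0 (hP.base 0) (hP.base 0)
  convert this using 2
  simp

theorem add {f g : (I → ℕ) → ℝ} (hf : P f) (hg : P g) : P (fun ω => f ω + g ω) := by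
  have := hP.lin _ _ 1 1 hf hg
  simpa using this

theorem sub {f g : (I → ℕ) → ℝ} (hf : P f) (hg : P g) : P (fun ω => f ω - g ω) := by
  have := hP.lin _ _ 1 (-1) hf hg
  convert this using 2
  ring

theorem smul {f : (I → ℕ) → ℝ} (a : ℝ) (hf : P f) : P (fun ω => a * f ω) := by
  have := hP.lin _ _ a 0 hf hf
  convert this using 2
  ring

theorem sum (f : ℕ → (I → ℕ) → ℝ) (hf : ∀ n, P (f n)) (N : ℕ) :
    P (fun ω => ∑ k ∈ Finset.range N, f k ω) := by
  induction N with
  | zero => simpa using hP.const 0
  | succ N ih =>
    simp only [Finset.sum_range_succ]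
    exact hP.add ih (hf N)

theorem step1 (S : Finset I) (a : I → ℕ) (s : I →₀ ℕ) (hs : Disjoint s.support S) :
    P (fun ω => (∏ i ∈ S, if ω i = a i then (1 : ℝ) else 0) * h s ω) := by
  classical
  induction S using Finset.induction_on generalizing s with
  | empty => simpa using hP.base s
  | insert i S hi ih =>
    rw [Finset.disjoint_insert_right] at hs
    obtain ⟨his, hs⟩ := hs
    set G : (I → ℕ) → ℝ := fun ω => (∏ i ∈ S, if ω i = a i then (1 : ℝ) else 0) * h s ω with hG
    have hG1 : ∀ ω, |G ω| ≤ 1 := by
      intro ω
      rw [hG]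
      simp only [abs_mul]
      have h1 : |∏ i ∈ S, if ω i = a i then (1 : ℝ) else 0| ≤ 1 := by
        rw [Finset.abs_prod]
        exact Finset.prod_le_one (fun _ _ => abs_nonneg _) (fun i _ => by split_ifs <;> simp)
      calc _ ≤ (1 : ℝ) * 1 := mul_le_mul h1 (h_abs_le s ω) (abs_nonneg _) zero_le_one
        _ = 1 := by ring
    have hm : ∀ m, P (fun ω => G ω * c m (ω i)) := by
      intro m
      have h1 : Disjoint (s + Finsupp.single i m).support S := by
        rw [Finset.disjoint_left]
        intro j hj
        have := Finsupp.support_add hj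
        rw [Finset.mem_union] at this
        rcases this with h2 | h2
        · exact Finset.disjoint_left.1 hs h2
        · have := Finsupp.support_single_subset h2
          simp at this
          subst this
          exact hi
      have := ih _ h1
      convert this using 2 with ω
      rw [h_add_single s i his, hG]
      ring
    have hG0 : P G := by simpa using hm 0
    have key : P (fun ω => G ω * (if ω i = a i then (1 : ℝ) else 0)) := by
      rcases Nat.lt_or_ge (a i) 2 with h2 | h2
      · -- limit argument
        set σ : ℝ := if a i = 0 then 1 else -1 with hσ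
        refine hP.lim (fun N ω => (1/2) * ((G ω - ∑ k ∈ Finset.range N, G ω * c (k + 2) (ω i)) +
          σ * (G ω * c 1 (ω i)))) _ 1 ?_ ?_ ?_
        · intro N
          exact hP.smul _ (hP.add (hP.sub hG0 (hP.sum _ (fun k => hm (k+2)) N)) (hP.smul _ (hm 1)))
        · intro N ω
          have h3 : ∑ k ∈ Finset.range N, G ω * c (k + 2) (ω i) =
              G ω * (if 2 ≤ ω i ∧ ω i < N + 2 then 1 else 0) := by
            rw [← Finset.mul_sum]
            congr 1
            simp only [c_two]
            by_cases h4 : 2 ≤ ω i ∧ ω i < N + 2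
            · rw [if_pos h4, Finset.sum_eq_single (ω i - 2)]
              · rw [if_pos (by omega)]
              · intro b _ hb
                rw [if_neg (by omega)]
              · intro hb
                simp at hb
                omega
            · rw [if_neg h4]
              apply Finset.sum_eq_zero
              intro k hk
              simp at hk
              rw [if_neg (by omega)]
          rw [h3]
          have h5 : (1/2 : ℝ) * ((G ω - G ω * (if 2 ≤ ω i ∧ ω i < N + 2 then 1 else 0)) +
              σ * (G ω * c 1 (ω i))) = G ω * ((1/2) * (1 - (if 2 ≤ ω i ∧ ω i < N + 2 then 1 else 0) +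
              σ * c 1 (ω i))) := by ring
          rw [h5, abs_mul]
          have h6 : |(1/2 : ℝ) * (1 - (if 2 ≤ ω i ∧ ω i < N + 2 then 1 else 0) +
              σ * c 1 (ω i))| ≤ 1 := by
            rw [c_one, hσ]
            split_ifs <;> norm_num
          calc _ ≤ (1 : ℝ) * 1 := mul_le_mul (hG1 ω) h6 (abs_nonneg _) zero_le_one
            _ = 1 := by ring
        · intro ω
          refine tendsto_const_nhds.congr' ?_
          filter_upwards [eventually_ge_atTop (ω i)] with N hN
          have h3 : ∑ k ∈ Finset.range N, G ω * c (k + 2) (ω i) =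
              G ω * (if 2 ≤ ω i then 1 else 0) := by
            rw [← Finset.mul_sum]
            congr 1
            simp only [c_two]
            by_cases h4 : 2 ≤ ω i
            · rw [if_pos h4, Finset.sum_eq_single (ω i - 2)]
              · rw [if_pos (by omega)]
              · intro b _ hb
                rw [if_neg (by omega)]
              · intro hb
                simp at hb
                omega
            · rw [if_neg h4]
              apply Finset.sum_eq_zero
              intro k hk
              rw [if_neg (by omega)]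
          rw [h3]
          have h5 : (1/2 : ℝ) * ((G ω - G ω * (if 2 ≤ ω i then 1 else 0)) +
              σ * (G ω * c 1 (ω i))) = G ω * ((1/2) * (1 - (if 2 ≤ ω i then 1 else 0) +
              σ * c 1 (ω i))) := by ring
          rw [h5]
          congr 1
          rw [c_one, hσ]
          have h7 : a i = 0 ∨ a i = 1 := by omega
          rcases h7 with h7 | h7 <;> rw [h7] <;> split_ifs <;> norm_num <;> omega
      · obtain ⟨m, hm2⟩ : ∃ m, a i = m + 2 := ⟨a i - 2, by omega⟩
        have := hm (a i)
        convert this using 3 with ω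
        rw [hm2, c_two]
    convert key using 2 with ω
    rw [Finset.prod_insert hi, hG]
    ring

theorem cyl (S : Finset I) (a : I → ℕ) :
    P ({ω : I → ℕ | ∀ i ∈ S, ω i = a i}.indicator fun _ => (1 : ℝ)) := by
  classical
  have := hP.step1 S a 0 (by simp)
  convert this using 2 with ω
  simp only [h_zero, mul_one]
  by_cases hω : ∀ i ∈ S, ω i = a i
  · rw [indicator_of_mem (by exact hω), Finset.prod_eq_one]
    intro i hi
    rw [if_pos (hω i hi)]
  · rw [indicator_of_notMem (by exact hω)]
    push Not at hω
    obtain ⟨i, hi, hne⟩ := hω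
    rw [Finset.prod_eq_zero hi]
    rw [if_neg hne]

omit hP in
/-- The cylinders together with the empty set. -/
def cyls (I : Type*) : Set (Set (I → ℕ)) :=
  {A | A = ∅ ∨ ∃ (S : Finset I) (a : I → ℕ), A = {ω : I → ℕ | ∀ i ∈ S, ω i = a i}}

omit hP in
theorem cyls_pi : IsPiSystem (cyls I) := by
  classical
  rintro A hA B hB hne
  rcases hA with rfl | ⟨S, a, rfl⟩
  · simp at hne
  rcases hB with rfl | ⟨T, b, rfl⟩
  · simp at hne
  obtain ⟨ω0, h1, h2⟩ := hne
  right
  refine ⟨S ∪ T, ω0, ?_⟩
  ext ω
  simp only [mem_inter_iff, mem_setOf_eq, Finset.mem_union] at *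
  constructor
  · rintro ⟨h3, h4⟩ i (hi | hi)
    · rw [h3 i hi, h1 i hi]
    · rw [h4 i hi, h2 i hi]
  · intro h3
    exact ⟨fun i hi => by rw [h3 i (Or.inl hi), h1 i hi], fun i hi => by rw [h3 i (Or.inr hi), h2 i hi]⟩

omit hP in
theorem cyls_gen : (MeasurableSpace.pi : MeasurableSpace (I → ℕ)) =
    MeasurableSpace.generateFrom (cyls I) := by
  classical
  apply le_antisymm
  · refine iSup_le fun i => ?_
    rintro t ⟨s, _, rfl⟩
    have h1 : (fun b : I → ℕ => b i) ⁻¹' s = ⋃ n ∈ s, {ω : I → ℕ | ω i = n} := by
      ext ω; simp
    rw [h1]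
    refine MeasurableSet.biUnion s.to_countable fun n _ => ?_
    apply MeasurableSpace.measurableSet_generateFrom
    right
    refine ⟨{i}, fun _ => n, ?_⟩
    ext ω
    simp
  · apply MeasurableSpace.generateFrom_le
    rintro A (rfl | ⟨S, a, rfl⟩)
    · exact MeasurableSet.empty
    · have : {ω : I → ℕ | ∀ i ∈ S, ω i = a i} = ⋂ i ∈ S, {ω : I → ℕ | ω i = a i} := by
        ext ω; simp
      rw [this]
      refine Finset.measurableSet_biInter _ fun i _ => ?_
      exact measurableSet_eq_fun (measurable_pi_apply i) measurable_const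

theorem ind {A : Set (I → ℕ)} (hA : MeasurableSet A) : P (A.indicator fun _ => (1 : ℝ)) := by
  refine MeasurableSpace.induction_on_inter (C := fun A _ => P (A.indicator fun _ => (1 : ℝ)))
    cyls_gen cyls_pi ?_ ?_ ?_ ?_ A hA
  · simpa using hP.const 0
  · rintro t (rfl | ⟨S, a, rfl⟩)
    · simpa using hP.const 0
    · exact hP.cyl S a
  · intro t _ ht
    have := hP.sub (hP.const 1) ht
    convert this using 2 with ω
    by_cases hω : ω ∈ t
    · simp [hω]
    · simp [hω]
  · intro f hd _ hf
    refine hP.lim (fun N ω => ∑ k ∈ Finset.range N, (f k).indicator (fun _ => (1 : ℝ)) ω) _ 1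
      (fun N => hP.sum _ hf N) ?_ ?_
    · intro N ω
      by_cases hω : ∃ k, ω ∈ f k
      · obtain ⟨k, hk⟩ := hω
        have : ∀ j ≠ k, (f j).indicator (fun _ => (1 : ℝ)) ω = 0 := by
          intro j hj
          rw [indicator_of_notMem]
          intro h3
          exact (Set.disjoint_left.1 (hd hj)) h3 hk
        by_cases hkN : k ∈ Finset.range N
        · rw [Finset.sum_eq_single_of_mem k hkN (fun j _ hj => this j hj), indicator_of_mem hk]
          simp
        · rw [Finset.sum_eq_zero]
          · simp
          · intro j hj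
            apply this
            rintro rfl
            exact hkN hj
      · push Not at hω
        rw [Finset.sum_eq_zero]
        · simp
        · intro j _
          rw [indicator_of_notMem (hω j)]
    · intro ω
      refine tendsto_const_nhds.congr' ?_
      by_cases hω : ∃ k, ω ∈ f k
      · obtain ⟨k, hk⟩ := hω
        filter_upwards [eventually_gt_atTop k] with N hN
        rw [indicator_of_mem (mem_iUnion.2 ⟨k, hk⟩), Finset.sum_eq_single_of_mem k (by simpa using hN),
          indicator_of_mem hk]
        intro j _ hj
        rw [indicator_of_notMem]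
        intro h3
        exact (Set.disjoint_left.1 (hd hj)) h3 hk
      · refine Eventually.of_forall fun N => ?_
        push Not at hω
        show _ = ∑ k ∈ Finset.range N, (f k).indicator (fun _ => (1 : ℝ)) ω
        rw [indicator_of_notMem (by simpa using hω), Finset.sum_eq_zero]
        intro j _
        rw [indicator_of_notMem (hω j)]

theorem simple (f : SimpleFunc (I → ℕ) ℝ) : P f := by
  induction f using SimpleFunc.induction with
  | const a hs =>
    rename_i s
    have := hP.smul a (hP.ind hs)
    convert this using 2 with ω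
    by_cases hω : ω ∈ s
    · simp [hω]
    · simp [hω]
  | add _ h1 h2 => exact hP.add h1 h2

theorem all {φ : (I → ℕ) → ℝ} (hφ : Measurable φ) {C : ℝ} (hC : ∀ ω, |φ ω| ≤ C) : P φ := by
  have hsm : StronglyMeasurable φ := hφ.stronglyMeasurable
  have hC0 : 0 ≤ C := (abs_nonneg _).trans (hC (fun _ => 0))
  refine hP.lim (fun n => hsm.approxBounded C n) φ C (fun n => hP.simple _) ?_ ?_
  · intro n ω
    simpa using hsm.norm_approxBounded_le hC0 n ω
  · intro ω
    apply hsm.tendsto_approxBounded_of_norm_le
    simpa using hC ω

end MonoClass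

end Pool.Agent.H810R3.Sx
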