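import Pool.Agent.H810R3.Sx.Mono
import Pool.Agent.H810R3.Sx.Dep
import Pool.Agent.H810R3.Sx.Defs

set_option autoImplicit false

/-! The convex set `XX I` of probability measures on `I → ℕ`, seen in `ℝ^(monomials)`. -/

namespace Pool.Agent.H810R3.Sx

open MeasureTheory Set Filter Topology

variable {I : Type*}

theorem integrable_bdd {Z : Type*} [MeasurableSpace Z] (ν : Measure Z) [IsFiniteMeasure ν] {φ : Z → ℝ}
    (hφ : Measurable φ) {C : ℝ} (hC : ∀ ω, |φ ω| ≤ C) : Integrable φ ν :=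
  (integrable_const C).mono' hφ.aestronglyMeasurable (Eventually.of_forall fun ω => by simpa using hC ω)

theorem mono_of {Q : ((I → ℕ) → ℝ) → Prop}
    (lin : ∀ (f g : (I → ℕ) → ℝ) (a b C D : ℝ), Measurable f → (∀ ω, |f ω| ≤ C) → Measurable g →
      (∀ ω, |g ω| ≤ D) → Q f → Q g → Q (fun ω => a * f ω + b * g ω))
    (lim : ∀ (f : ℕ → (I → ℕ) → ℝ) (g : (I → ℕ) → ℝ) (C : ℝ), (∀ n, Measurable (f n)) →
      (∀ n, Q (f n)) → (∀ n ω, |f n ω| ≤ C) → (∀ ω, Tendsto (fun n => f n ω) atTop (𝓝 (g ω))) →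
      Measurable g → Q g)
    (base : ∀ s, Q (h s)) {φ : (I → ℕ) → ℝ} (hφ : Measurable φ) {C : ℝ} (hC : ∀ ω, |φ ω| ≤ C) :
    Q φ := by
  have hM : MonoClass (I := I) (fun φ => Measurable φ ∧ (∃ C, ∀ ω, |φ ω| ≤ C) ∧ Q φ) := by
    refine ⟨?_, ?_, ?_⟩
    · rintro f g a b ⟨h1, ⟨C, h2⟩, h3⟩ ⟨k1, ⟨D, k2⟩, k3⟩
      refine ⟨(h1.const_mul a).add (k1.const_mul b), ⟨|a| * C + |b| * D, fun ω => ?_⟩,
        lin f g a b C D h1 h2 k1 k2 h3 k3⟩
      refine (abs_add_le _ _).trans ?_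
      rw [abs_mul, abs_mul]
      exact add_le_add (mul_le_mul_of_nonneg_left (h2 ω) (abs_nonneg _))
        (mul_le_mul_of_nonneg_left (k2 ω) (abs_nonneg _))
    · intro f g C h1 h2 h3
      have hm : Measurable g := measurable_of_tendsto_metrizable (fun n => (h1 n).1) (tendsto_pi_nhds.2 h3)
      refine ⟨hm, ⟨C, fun ω => ?_⟩, lim f g C (fun n => (h1 n).1) (fun n => (h1 n).2.2) h2 h3 hm⟩
      exact le_of_tendsto' (h3 ω).abs fun n => h2 n ω
    · intro s
      exact ⟨h_measurable s, ⟨1, h_abs_le s⟩, base s⟩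
  exact (hM.all hφ hC).2.2

theorem lim_int {Z : Type*} [MeasurableSpace Z] (ν : Measure Z) [IsFiniteMeasure ν] {f : ℕ → Z → ℝ}
    {g : Z → ℝ} {C : ℝ} (h1 : ∀ n, Measurable (f n)) (h2 : ∀ n ω, |f n ω| ≤ C)
    (h3 : ∀ ω, Tendsto (fun n => f n ω) atTop (𝓝 (g ω))) :
    Tendsto (fun n => ∫ ω, f n ω ∂ν) atTop (𝓝 (∫ ω, g ω ∂ν)) :=
  tendsto_integral_of_dominated_convergence (fun _ => C) (fun n => (h1 n).aestronglyMeasurable)
    (integrable_const C) (fun n => Eventually.of_forall fun ω => by simpa using h2 n ω)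
    (Eventually.of_forall h3)

/-- The point of `ℝ^(monomials)` given by a measure. -/
noncomputable def pt (ν : Measure (I → ℕ)) : (I →₀ ℕ) → ℝ := fun s => ∫ ω, h s ω ∂ν

/-- The simplex. -/
def XX (I : Type*) : Set ((I →₀ ℕ) → ℝ) :=
  {x | ∃ ν : Measure (I → ℕ), IsProbabilityMeasure ν ∧ x = pt ν}

/-- the measure of a point of the simplex -/
noncomputable def nu (x : XX I) : Measure (I → ℕ) := x.2.choose

instance (x : XX I) : IsProbabilityMeasure (nu x) := x.2.choose_spec.1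

theorem nu_spec (x : XX I) (s : I →₀ ℕ) : ∫ ω, h s ω ∂(nu x) = (x : (I →₀ ℕ) → ℝ) s := by
  conv_rhs => rw [x.2.choose_spec.2]
  rfl

/-- linear relation between integrals, from monomials to all bounded measurable functions -/
theorem lin_rel (ν ν1 ν2 : Measure (I → ℕ)) [IsFiniteMeasure ν] [IsFiniteMeasure ν1]
    [IsFiniteMeasure ν2] (t u : ℝ)
    (hh : ∀ s, ∫ ω, h s ω ∂ν = t * ∫ ω, h s ω ∂ν1 + u * ∫ ω, h s ω ∂ν2)
    {φ : (I → ℕ) → ℝ} (hφ : Measurable φ) {C : ℝ} (hC : ∀ ω, |φ ω| ≤ C) :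
    ∫ ω, φ ω ∂ν = t * ∫ ω, φ ω ∂ν1 + u * ∫ ω, φ ω ∂ν2 := by
  refine mono_of (Q := fun φ => ∫ ω, φ ω ∂ν = t * ∫ ω, φ ω ∂ν1 + u * ∫ ω, φ ω ∂ν2) ?_ ?_ hh hφ hC
  · intro f g a b C D h1 h2 k1 k2 h3 k3
    have e : ∀ (ρ : Measure (I → ℕ)) [IsFiniteMeasure ρ], ∫ ω, (a * f ω + b * g ω) ∂ρ =
        a * ∫ ω, f ω ∂ρ + b * ∫ ω, g ω ∂ρ := by
      intro ρ _
      rw [integral_add ((integrable_bdd ρ h1 h2).const_mul a) ((integrable_bdd ρ k1 k2).const_mul b),
        integral_const_mul, integral_const_mul]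
    rw [e, e, e, h3, k3]
    ring
  · intro f g C h1 h2 h3 h4 h5
    have l0 := lim_int ν h1 h3 h4
    have l1 := lim_int ν1 h1 h3 h4
    have l2 := lim_int ν2 h1 h3 h4
    simp only [h2] at l0
    exact tendsto_nhds_unique l0 ((l1.const_mul t).add (l2.const_mul u))

theorem int_uniq (ν ν' : Measure (I → ℕ)) [IsFiniteMeasure ν] [IsFiniteMeasure ν']
    (hh : ∀ s, ∫ ω, h s ω ∂ν = ∫ ω, h s ω ∂ν') {φ : (I → ℕ) → ℝ} (hφ : Measurable φ) {C : ℝ}
    (hC : ∀ ω, |φ ω| ≤ C) : ∫ ω, φ ω ∂ν = ∫ ω, φ ω ∂ν' := by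
  have := lin_rel ν ν' ν' 1 0 (by simpa using hh) hφ hC
  simpa using this

theorem meas_uniq (ν ν' : Measure (I → ℕ)) [IsFiniteMeasure ν] [IsFiniteMeasure ν']
    (hh : ∀ s, ∫ ω, h s ω ∂ν = ∫ ω, h s ω ∂ν') : ν = ν' := by
  ext A hA
  have := int_uniq ν ν' hh (φ := A.indicator fun _ => (1 : ℝ)) (measurable_const.indicator hA) (C := 1)
    (fun ω => by by_cases hω : ω ∈ A <;> simp [hω])
  have e : ∀ (ρ : Measure (I → ℕ)), ∫ ω, A.indicator (fun _ => (1 : ℝ)) ω ∂ρ = ρ.real A := by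
    intro ρ
    rw [integral_indicator hA]
    simp
  rw [e, e] at this
  rw [← ENNReal.toReal_eq_toReal_iff' (measure_ne_top _ _) (measure_ne_top _ _)]
  exact this

theorem pt_smul_add (ν1 ν2 : Measure (I → ℕ)) [IsProbabilityMeasure ν1] [IsProbabilityMeasure ν2]
    (a b : ℝ) (ha : 0 ≤ a) (hb : 0 ≤ b) (hab : a + b = 1) :
    ∃ ν : Measure (I → ℕ), IsProbabilityMeasure ν ∧ pt ν = a • pt ν1 + b • pt ν2 := by
  refine ⟨ENNReal.ofReal a • ν1 + ENNReal.ofReal b • ν2, ⟨?_⟩, ?_⟩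
  · simp only [Measure.coe_add, Measure.coe_smul, Pi.add_apply, Pi.smul_apply, measure_univ,
      smul_eq_mul, mul_one]
    rw [← ENNReal.ofReal_add ha hb, hab, ENNReal.ofReal_one]
  · funext s
    simp only [pt, Pi.add_apply, Pi.smul_apply, smul_eq_mul]
    rw [integral_add_measure, integral_smul_measure, integral_smul_measure,
      ENNReal.toReal_ofReal ha, ENNReal.toReal_ofReal hb, smul_eq_mul, smul_eq_mul]
    · exact (integrable_bdd ν1 (h_measurable s) (h_abs_le s)).smul_measure ENNReal.ofReal_ne_top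
    · exact (integrable_bdd ν2 (h_measurable s) (h_abs_le s)).smul_measure ENNReal.ofReal_ne_top

theorem XX_convex : Convex ℝ (XX I) := by
  rintro x ⟨ν1, hν1, rfl⟩ y ⟨ν2, hν2, rfl⟩ a b ha hb hab
  obtain ⟨ν, hν, h1⟩ := pt_smul_add ν1 ν2 a b ha hb hab
  exact ⟨ν, hν, h1.symm⟩

/-- the point given by `ω` -/
noncomputable def io (ω : I → ℕ) : (I →₀ ℕ) → ℝ := fun s => h s ω

theorem pt_dirac (ω : I → ℕ) : pt (Measure.dirac ω) = io ω := by
  funext s
  exact integral_dirac' _ _ (h_measurable s).stronglyMeasurable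

theorem io_mem (ω : I → ℕ) : io ω ∈ XX I :=
  ⟨Measure.dirac ω, inferInstance, (pt_dirac ω).symm⟩

theorem XX_nonempty : (XX I).Nonempty := ⟨_, io_mem fun _ => 0⟩

theorem io_continuous : Continuous (io : (I → ℕ) → ((I →₀ ℕ) → ℝ)) :=
  continuous_pi fun s => h_continuous s

theorem io_injective : Function.Injective (io : (I → ℕ) → ((I →₀ ℕ) → ℝ)) := by
  intro ω ω' hh
  have h1 : (Measure.dirac ω : Measure (I → ℕ)) = Measure.dirac ω' := by
    apply meas_uniq
    intro s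
    have := congrFun ((pt_dirac ω).trans (hh.trans (pt_dirac ω').symm)) s
    exact this
  funext i
  have hm : MeasurableSet {ρ : I → ℕ | ρ i = ω i} :=
    measurableSet_eq_fun (measurable_pi_apply i) measurable_const
  have h2 : (Measure.dirac ω : Measure (I → ℕ)) {ρ : I → ℕ | ρ i = ω i} = 1 := by
    rw [Measure.dirac_apply' _ hm]; simp
  rw [h1, Measure.dirac_apply' _ hm] at h2
  by_contra hne
  rw [indicator_of_notMem] at h2
  · simp at h2
  · intro h3
    exact hne h3.symm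

theorem nu_io (ω : I → ℕ) : nu ⟨io ω, io_mem ω⟩ = Measure.dirac ω := by
  apply meas_uniq
  intro s
  rw [nu_spec]
  exact (congrFun (pt_dirac ω) s).symm

/-! ### Extreme points -/

theorem io_extreme (ω : I → ℕ) : io ω ∈ (XX I).extremePoints ℝ := by
  rw [mem_extremePoints]
  refine ⟨io_mem ω, ?_⟩
  have key : ∀ x1 ∈ XX I, ∀ x2 ∈ XX I, io ω ∈ openSegment ℝ x1 x2 → x1 = io ω := by
    rintro x1 ⟨ν1, hν1, rfl⟩ x2 ⟨ν2, hν2, rfl⟩ ⟨a, b, ha, hb, hab, heq⟩
    funext s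
    have h1 : ∀ s, ∫ ρ, h s ρ ∂(Measure.dirac ω) = a * ∫ ρ, h s ρ ∂ν1 + b * ∫ ρ, h s ρ ∂ν2 := by
      intro s
      have h2 := congrFun (pt_dirac ω) s
      have h3 := congrFun heq s
      simp only [pt] at h2
      rw [h2, ← h3]
      rfl
    have hm : Measurable (fun ρ : I → ℕ => |h s ρ - h s ω|) := ((h_measurable s).sub_const _).abs
    have hb2 : ∀ ρ : I → ℕ, |(|h s ρ - h s ω|)| ≤ 2 := by
      intro ρ
      rw [abs_abs]
      have e1 := abs_le.1 (h_abs_le s ρ)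
      have e2 := abs_le.1 (h_abs_le s ω)
      rw [abs_le]
      constructor <;> linarith [e1.1, e1.2, e2.1, e2.2]
    have h4 := lin_rel (Measure.dirac ω) ν1 ν2 a b h1 hm hb2
    rw [integral_dirac' _ _ hm.stronglyMeasurable] at h4
    simp only [sub_self, abs_zero] at h4
    have p1 : 0 ≤ ∫ ρ, |h s ρ - h s ω| ∂ν1 := integral_nonneg fun _ => abs_nonneg _
    have p2 : 0 ≤ ∫ ρ, |h s ρ - h s ω| ∂ν2 := integral_nonneg fun _ => abs_nonneg _
    have p3 : ∫ ρ, |h s ρ - h s ω| ∂ν1 = 0 := by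
      have q1 := mul_nonneg ha.le p1
      have q2 := mul_nonneg hb.le p2
      have q3 : a * ∫ ρ, |h s ρ - h s ω| ∂ν1 = 0 := by linarith
      rcases mul_eq_zero.1 q3 with q4 | q4
      · exact absurd q4 ha.ne'
      · exact q4
    have p4 : |∫ ρ, (h s ρ - h s ω) ∂ν1| ≤ 0 := by
      calc |∫ ρ, (h s ρ - h s ω) ∂ν1| ≤ ∫ ρ, |h s ρ - h s ω| ∂ν1 := abs_integral_le_integral_abs
        _ = 0 := p3
    have p5 : ∫ ρ, (h s ρ - h s ω) ∂ν1 = 0 := abs_eq_zero.1 (le_antisymm p4 (abs_nonneg _))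
    rw [integral_sub (integrable_bdd ν1 (h_measurable s) (h_abs_le s)) (integrable_const _)] at p5
    simp at p5
    show ∫ ρ, h s ρ ∂ν1 = h s ω
    linarith
  intro x1 hx1 x2 hx2 hseg
  exact ⟨key x1 hx1 x2 hx2 hseg, key x2 hx2 x1 hx1 (by rwa [openSegment_symm])⟩

theorem extreme_io {x : (I →₀ ℕ) → ℝ} (hx : x ∈ (XX I).extremePoints ℝ) : ∃ ω, x = io ω := by
  rw [mem_extremePoints] at hx
  obtain ⟨⟨ν, hν, rfl⟩, hext⟩ := hx
  -- zero-one law
  have h01 : ∀ A : Set (I → ℕ), MeasurableSet A → ν A = 0 ∨ ν Aᶜ = 0 := by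
    intro A hA
    by_contra hcon
    push Not at hcon
    obtain ⟨hA0, hA1⟩ := hcon
    have c1 : IsProbabilityMeasure (ProbabilityTheory.cond ν A) := ProbabilityTheory.cond_isProbabilityMeasure hA0
    have c2 : IsProbabilityMeasure (ProbabilityTheory.cond ν Aᶜ) := ProbabilityTheory.cond_isProbabilityMeasure hA1
    have hp1 : 0 < ν.real A := ENNReal.toReal_pos hA0 (measure_ne_top _ _)
    have hp2 : 0 < ν.real Aᶜ := ENNReal.toReal_pos hA1 (measure_ne_top _ _)
    have hsum : ν.real A + ν.real Aᶜ = 1 := by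
      rw [measureReal_add_measureReal_compl hA]; simp
    have e : ∀ (B : Set (I → ℕ)) (s : I →₀ ℕ), ν B ≠ 0 →
        ν.real B * pt (ProbabilityTheory.cond ν B) s = ∫ ω in B, h s ω ∂ν := by
      intro B s hB
      simp only [pt, ProbabilityTheory.cond]
      rw [integral_smul_measure, smul_eq_mul, ENNReal.toReal_inv, ← mul_assoc]
      rw [show (ν B).toReal = ν.real B from rfl, mul_inv_cancel₀, one_mul]
      exact (ENNReal.toReal_pos hB (measure_ne_top _ _)).ne'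
    have hseg : pt ν ∈ openSegment ℝ (pt (ProbabilityTheory.cond ν A)) (pt (ProbabilityTheory.cond ν Aᶜ)) := by
      refine ⟨ν.real A, ν.real Aᶜ, hp1, hp2, hsum, ?_⟩
      funext s
      simp only [Pi.add_apply, Pi.smul_apply, smul_eq_mul]
      rw [e A s hA0, e Aᶜ s hA1]
      exact integral_add_compl hA (integrable_bdd ν (h_measurable s) (h_abs_le s))
    have h5 := (hext _ ⟨_, c1, rfl⟩ _ ⟨_, c2, rfl⟩ hseg).1
    have h6 : ProbabilityTheory.cond ν A = ν := meas_uniq _ _ fun s => congrFun h5 s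
    apply hA1
    rw [← h6, ProbabilityTheory.cond_apply hA]
    simp
  have hcoord : ∀ i, ∃ n, ν {ω : I → ℕ | ω i = n}ᶜ = 0 := by
    intro i
    by_contra hcon
    push Not at hcon
    have h1 : ∀ n, ν {ω : I → ℕ | ω i = n} = 0 := fun n =>
      (h01 _ (measurableSet_eq_fun (measurable_pi_apply i) measurable_const)).resolve_right (hcon n)
    have h2 : ν univ = 0 := by
      have : (univ : Set (I → ℕ)) = ⋃ n, {ω : I → ℕ | ω i = n} := by
        ext ω; simp
      rw [this]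
      exact measure_iUnion_null h1
    rw [measure_univ] at h2
    exact one_ne_zero h2
  choose w hw using hcoord
  refine ⟨w, ?_⟩
  funext s
  show ∫ ω, h s ω ∂ν = h s w
  have hae : ∀ᵐ ω ∂ν, ∀ i ∈ s.support, ω i = w i := by
    rw [Filter.eventually_all_finset]
    intro i _
    exact hw i
  have : ∀ᵐ ω ∂ν, h s ω = h s w := by
    filter_upwards [hae] with ω hω
    unfold h Finsupp.prod
    exact Finset.prod_congr rfl fun i hi => by
      show c (s i) (ω i) = c (s i) (w i)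
      rw [hω i hi]
  rw [integral_congr_ae this]
  simp

theorem extreme_eq : (XX I).extremePoints ℝ = range (io : (I → ℕ) → _) := by
  ext x
  constructor
  · intro hx
    obtain ⟨ω, rfl⟩ := extreme_io hx
    exact ⟨ω, rfl⟩
  · rintro ⟨ω, rfl⟩
    exact io_extreme ω

/-! ### Not Lindelöf -/

/-- open sets recognising the coordinate -/
def Oset (i : I) (n : ℕ) : Set ((I →₀ ℕ) → ℝ) :=
  if n = 0 then {x | 1/2 < x (Finsupp.single i 1)}
  else if n = 1 then {x | x (Finsupp.single i 1) < -1/2}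
  else {x | 1/2 < x (Finsupp.single i n)}

theorem Oset_isOpen (i : I) (n : ℕ) : IsOpen (Oset i n) := by
  unfold Oset
  split_ifs
  · exact isOpen_lt continuous_const (continuous_apply _)
  · exact isOpen_lt (continuous_apply _) continuous_const
  · exact isOpen_lt continuous_const (continuous_apply _)

theorem io_mem_Oset (ω : I → ℕ) (i : I) (n : ℕ) : io ω ∈ Oset i n ↔ ω i = n := by
  unfold Oset
  split_ifs with h1 h2
  · subst h1
    simp only [io, mem_setOf_eq, h_single, c_one]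
    split_ifs <;> simp_all <;> norm_num
  · subst h2
    simp only [io, mem_setOf_eq, h_single, c_one]
    split_ifs <;> simp_all <;> norm_num
  · obtain ⟨m, rfl⟩ : ∃ m, n = m + 2 := ⟨n - 2, by omega⟩
    simp only [io, mem_setOf_eq, h_single, c_two]
    split_ifs <;> simp_all <;> norm_num

theorem not_lindelof [Uncountable I] : ¬ LindelofSpace ((XX I).extremePoints ℝ) := by
  classical
  intro hL
  have hL' : IsLindelof ((XX I).extremePoints ℝ) := isLindelof_iff_lindelofSpace.2 hL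
  -- the cover
  let V : I ⊕ {p : I × I × ℕ // p.1 ≠ p.2.1 ∧ p.2.2 ≠ 0} → Set ((I →₀ ℕ) → ℝ) := fun q =>
    match q with
    | Sum.inl i => Oset i 0
    | Sum.inr p => Oset p.1.1 p.1.2.2 ∩ Oset p.1.2.1 p.1.2.2
  obtain ⟨r, hr, hcov⟩ := hL'.elim_countable_subcover V (by
    rintro (i | p)
    · exact Oset_isOpen i 0
    · exact (Oset_isOpen _ _).inter (Oset_isOpen _ _)) (by
    intro x hx
    obtain ⟨ω, rfl⟩ := extreme_io hx
    by_cases h0 : ∃ i, ω i = 0
    · obtain ⟨i, hi⟩ := h0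
      exact mem_iUnion.2 ⟨Sum.inl i, (io_mem_Oset _ _ _).2 hi⟩
    · push Not at h0
      have : ¬ Function.Injective ω := fun hinj => not_countable (α := I) (hinj.countable)
      rw [Function.Injective] at this
      push Not at this
      obtain ⟨i, j, hij, hne⟩ := this
      exact mem_iUnion.2 ⟨Sum.inr ⟨(i, j, ω i), hne, h0 i⟩,
        (io_mem_Oset _ _ _).2 rfl, (io_mem_Oset _ _ _).2 hij.symm⟩)
  -- a point which is not covered
  set J : Set I := {i | Sum.inl i ∈ r} with hJ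
  have hJc : J.Countable := hr.preimage Sum.inl_injective
  obtain ⟨f, hf⟩ := (countable_iff_exists_injOn).1 hJc
  let w : I → ℕ := fun i => if i ∈ J then f i + 1 else 0
  have := hcov (io_extreme w)
  rw [mem_iUnion₂] at this
  obtain ⟨q, hq, hwq⟩ := this
  rcases q with i | ⟨⟨i, j, n⟩, hne, hn⟩
  · have h1 : w i = 0 := (io_mem_Oset _ _ _).1 hwq
    have : i ∈ J := hq
    simp [w, this] at h1
  · obtain ⟨h1, h2⟩ := hwq
    rw [io_mem_Oset] at h1 h2
    simp only at h1 h2 hne hn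
    have hi : i ∈ J := by
      by_contra hi
      simp [w, hi] at h1
      exact hn h1.symm
    have hj : j ∈ J := by
      by_contra hj
      simp [w, hj] at h2
      exact hn h2.symm
    simp only [w, hi, hj, if_true] at h1 h2
    exact hne (hf hi hj (by omega))

end Pool.Agent.H810R3.Sx
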