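import Pool.Agent.H810R3.Sx.Pts

set_option autoImplicit false

/-! Transport of a probability on `I → ℕ` to a Radon probability on a compact space. -/

namespace Pool.Agent.H810R3.Sx

open MeasureTheory Set Filter Topology
open scoped CompactlySupported

variable {I : Type*}

theorem cont_bdd {Z : Type*} [TopologicalSpace Z] [CompactSpace Z] {φ : Z → ℝ} (hφ : Continuous φ) :
    ∃ C, ∀ z, |φ z| ≤ C := by
  obtain ⟨C, hC⟩ := (isCompact_univ (X := Z)).exists_bound_of_continuousOn hφ.continuousOn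
  exact ⟨C, fun z => by simpa using hC z (mem_univ z)⟩

theorem exists_push {Z : Type*} [TopologicalSpace Z] [CompactSpace Z] [T2Space Z] [MeasurableSpace Z]
    [BorelSpace Z] (j : (I → ℕ) → Z) (hj : Continuous j) (ν : Measure (I → ℕ))
    [IsProbabilityMeasure ν] : ∃ μ : Measure Z, IsProbabilityMeasure μ ∧ μ.Regular ∧
      ∀ φ : Z → ℝ, Continuous φ → ∫ z, φ z ∂μ = ∫ ω, φ (j ω) ∂ν := by
  have hi : ∀ φ : Z → ℝ, Continuous φ → Integrable (fun ω => φ (j ω)) ν := by
    intro φ hφ
    obtain ⟨C, hC⟩ := cont_bdd hφ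
    exact integrable_bdd ν (measurable_of_cont (hφ.comp hj)) (fun ω => hC _)
  let Λ : C_c(Z, ℝ) →ₚ[ℝ] ℝ :=
  { toFun := fun g => ∫ ω, g (j ω) ∂ν
    map_add' := fun g g' => integral_add (hi g g.continuous) (hi g' g'.continuous)
    map_smul' := fun c g => integral_smul c (fun ω => g (j ω))
    monotone' := fun g g' hgg' => integral_mono (hi g g.continuous) (hi g' g'.continuous)
      fun ω => hgg' (j ω) }
  have key : ∀ φ : Z → ℝ, Continuous φ → ∫ z, φ z ∂(RealRMK.rieszMeasure Λ) = ∫ ω, φ (j ω) ∂ν := by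
    intro φ hφ
    let g' : C_c(Z, ℝ) :=
    { toFun := φ
      hasCompactSupport' := HasCompactSupport.of_compactSpace _ }
    exact RealRMK.integral_rieszMeasure Λ g'
  refine ⟨RealRMK.rieszMeasure Λ, ⟨?_⟩, inferInstance, key⟩
  have := key (fun _ => 1) continuous_const
  simp only [integral_const, smul_eq_mul, mul_one] at this
  have h1 : (RealRMK.rieszMeasure Λ).real univ = 1 := by
    rw [this]; simp
  rw [Measure.real, ENNReal.toReal_eq_one_iff] at h1
  exact h1

end Pool.Agent.H810R3.Sx
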