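import Pool.Agent.H810R3.Sx.Baire
import Pool.Agent.H810R3.Sx.Compact
import Pool.Agent.H810R3.Sx.Jensen

set_option autoImplicit false

/-! `XX I` is a simplex. -/

namespace Pool.Agent.H810R3.Sx

open MeasureTheory Set Filter Topology

theorem clm_finite {κ : Type*} [DecidableEq κ] (ℓ : (κ → ℝ) →L[ℝ] ℝ) :
    ∃ (F : Finset κ) (a : κ → ℝ), ∀ x, ℓ x = ∑ k ∈ F, x k * a k := by
  have h1 : ℓ ⁻¹' (Metric.ball 0 1) ∈ 𝓝 (0 : κ → ℝ) := by
    apply ℓ.continuous.continuousAt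
    rw [map_zero]
    exact Metric.ball_mem_nhds _ one_pos
  rw [nhds_pi, Filter.mem_pi'] at h1
  obtain ⟨F, t, ht, hsub⟩ := h1
  have h2 : ∀ x : κ → ℝ, (∀ k ∈ F, x k = 0) → ℓ x = 0 := by
    intro x hx
    have h3 : ∀ n : ℕ, (n : ℝ) * |ℓ x| < 1 := by
      intro n
      have : (n : ℝ) • x ∈ ℓ ⁻¹' (Metric.ball 0 1) := by
        apply hsub
        intro k hk
        simp only [Pi.smul_apply, hx k hk, smul_zero]
        exact mem_of_mem_nhds (ht k)
      simp only [mem_preimage, map_smul, smul_eq_mul, mem_ball_zero_iff, norm_mul, Real.norm_eq_abs,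
        Nat.abs_cast] at this
      exact this
    by_contra hne
    obtain ⟨n, hn⟩ := exists_nat_gt (1 / |ℓ x|)
    have hpos : 0 < |ℓ x| := abs_pos.2 hne
    rw [div_lt_iff₀ hpos] at hn
    exact absurd (h3 n) (not_lt.2 hn.le)
  refine ⟨F, fun k => ℓ (Pi.single k 1), fun x => ?_⟩
  have h4 := h2 (x - ∑ k ∈ F, x k • Pi.single k 1) (by
    intro k hk
    simp only [Pi.sub_apply, Finset.sum_apply, Pi.smul_apply, smul_eq_mul]
    rw [Finset.sum_eq_single_of_mem k hk]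
    · simp
    · intro b _ hb
      simp [Pi.single_apply, hb.symm])
  rw [map_sub, map_sum, sub_eq_zero] at h4
  rw [h4]
  simp

variable {I : Type*}

theorem exists_mu (x : XX I) : ∃ μ : @Measure (XX I) (borel (XX I)), IsRadonProb μ ∧
    ∀ φ : XX I → ℝ, Continuous φ → integ μ φ = ∫ ω, φ ⟨io ω, io_mem ω⟩ ∂(nu x) := by
  letI : MeasurableSpace (XX I) := borel (XX I)
  haveI : BorelSpace (XX I) := ⟨rfl⟩
  haveI : CompactSpace (XX I) := isCompact_iff_compactSpace.1 XX_compact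
  obtain ⟨μ, h1, h2, h3⟩ := exists_push (fun ω : I → ℕ => (⟨io ω, io_mem ω⟩ : XX I))
    (io_continuous.subtype_mk _) (nu x)
  exact ⟨μ, ⟨h1, h2⟩, h3⟩

/-- the maximal measure representing `x` -/
noncomputable def mu (x : XX I) : @Measure (XX I) (borel (XX I)) := (exists_mu x).choose

theorem mu_radon (x : XX I) : IsRadonProb (mu x) := (exists_mu x).choose_spec.1

theorem mu_integ (x : XX I) {φ : XX I → ℝ} (hφ : Continuous φ) :
    integ (mu x) φ = ∫ ω, φ ⟨io ω, io_mem ω⟩ ∂(nu x) := (exists_mu x).choose_spec.2 φ hφ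

theorem mu_bary (x : XX I) : IsBarycenter (mu x) (x : (I →₀ ℕ) → ℝ) := by
  classical
  intro ℓ
  rw [mu_integ x (φ := fun y : XX I => ℓ y) (ℓ.continuous.comp continuous_subtype_val)]
  obtain ⟨F, a, hF⟩ := clm_finite ℓ
  simp only [hF]
  rw [integral_finset_sum]
  · refine Finset.sum_congr rfl fun k _ => ?_
    rw [integral_mul_const]
    congr 1
    exact nu_spec x k
  · intro k _
    exact (integrable_bdd (nu x) (h_measurable k) (h_abs_le k)).mul_const _

theorem mixture (μ : @Measure (XX I) (borel (XX I))) (hμ : IsRadonProb μ) (x : XX I)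
    (hb : IsBarycenter μ (x : (I →₀ ℕ) → ℝ)) {φ : (I → ℕ) → ℝ} (hφ : Measurable φ) {C : ℝ}
    (hC : ∀ ω, |φ ω| ≤ C) :
    integ μ (fun z : XX I => ∫ ω, φ ω ∂(nu z)) = ∫ ω, φ ω ∂(nu x) := by
  letI : MeasurableSpace (XX I) := borel (XX I)
  haveI : IsProbabilityMeasure μ := hμ.1
  have hbd : ∀ {φ : (I → ℕ) → ℝ} {C : ℝ}, (∀ ω, |φ ω| ≤ C) → ∀ z : XX I, |∫ ω, φ ω ∂(nu z)| ≤ C := by
    intro φ C hC z
    have := norm_integral_le_of_norm_le_const (μ := nu z) (f := φ) (C := C)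
      (Eventually.of_forall fun y => by simpa using hC y)
    simpa using this
  refine mono_of (Q := fun φ => integ μ (fun z : XX I => ∫ ω, φ ω ∂(nu z)) = ∫ ω, φ ω ∂(nu x))
    ?_ ?_ ?_ hφ hC
  · intro f g a b C D h1 h2 k1 k2 h3 k3
    have e : ∀ (ρ : Measure (I → ℕ)) [IsFiniteMeasure ρ], ∫ ω, (a * f ω + b * g ω) ∂ρ =
        a * ∫ ω, f ω ∂ρ + b * ∫ ω, g ω ∂ρ := by
      intro ρ _
      rw [integral_add ((integrable_bdd ρ h1 h2).const_mul a) ((integrable_bdd ρ k1 k2).const_mul b),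
        integral_const_mul, integral_const_mul]
    simp only [e]
    show ∫ z : XX I, (a * ∫ ω, f ω ∂(nu z) + b * ∫ ω, g ω ∂(nu z)) ∂μ = _
    rw [integral_add, integral_const_mul, integral_const_mul]
    · have h3' : ∫ z : XX I, (∫ ω, f ω ∂(nu z)) ∂μ = ∫ ω, f ω ∂(nu x) := h3
      have k3' : ∫ z : XX I, (∫ ω, g ω ∂(nu z)) ∂μ = ∫ ω, g ω ∂(nu x) := k3
      rw [h3', k3']
    · exact (integrable_bdd μ (baire_int h1 h2).measurable_borel (hbd h2)).const_mul a
    · exact (integrable_bdd μ (baire_int k1 k2).measurable_borel (hbd k2)).const_mul b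
  · intro f g C h1 h2 h3 h4 h5
    have l1 := lim_int (nu x) h1 h3 h4
    have l2 : Tendsto (fun n => ∫ z : XX I, (∫ ω, f n ω ∂(nu z)) ∂μ) atTop
        (𝓝 (∫ z : XX I, (∫ ω, g ω ∂(nu z)) ∂μ)) :=
      lim_int μ (fun n => (baire_int (h1 n) (h3 n)).measurable_borel) (fun n z => hbd (h3 n) z)
        (fun z => lim_int (nu z) h1 h3 h4)
    have h2' : ∀ n, ∫ z : XX I, (∫ ω, f n ω ∂(nu z)) ∂μ = ∫ ω, f n ω ∂(nu x) := h2
    simp only [h2'] at l2
    exact tendsto_nhds_unique l2 l1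
  · intro s
    have e : (fun z : XX I => ∫ ω, h s ω ∂(nu z)) = fun z : XX I =>
        (ContinuousLinearMap.proj (R := ℝ) (φ := fun _ : I →₀ ℕ => ℝ) s) (z : (I →₀ ℕ) → ℝ) := by
      funext z; exact nu_spec z s
    rw [e, hb, nu_spec]
    rfl

theorem le_mu (μ : @Measure (XX I) (borel (XX I))) (hμ : IsRadonProb μ) (x : XX I)
    (hb : IsBarycenter μ (x : (I →₀ ℕ) → ℝ)) : ChoquetLE μ (mu x) := by
  intro f hf hf'
  letI : MeasurableSpace (XX I) := borel (XX I)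
  haveI : IsProbabilityMeasure μ := hμ.1
  haveI : CompactSpace (XX I) := isCompact_iff_compactSpace.1 XX_compact
  have hfc : Continuous (fun y : XX I => f y) := hf.domRestrict
  have hfio : Continuous (fun ω : I → ℕ => f (io ω)) :=
    hfc.comp (io_continuous.subtype_mk io_mem)
  obtain ⟨C, hC⟩ := cont_bdd hfc
  have hC' : ∀ ω : I → ℕ, |f (io ω)| ≤ C := fun ω => hC ⟨io ω, io_mem ω⟩
  have hm := measurable_of_cont hfio
  rw [mu_integ x hfc]
  show integ μ (fun y : XX I => f y) ≤ ∫ ω, f (io ω) ∂(nu x)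
  rw [← mixture μ hμ x hb hm hC']
  have hbd : ∀ z : XX I, |∫ ω, f (io ω) ∂(nu z)| ≤ C := by
    intro z
    have := norm_integral_le_of_norm_le_const (μ := nu z) (f := fun ω => f (io ω)) (C := C)
      (Eventually.of_forall fun y => by simpa using hC' y)
    simpa using this
  refine integral_mono (integrable_radon XX_compact μ hμ hfc)
    (integrable_bdd μ (baire_int hm hC').measurable_borel hbd) ?_
  intro z
  have := jensen XX_compact (mu z) (mu_radon z) z.2 (mu_bary z) hf hf'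
  rwa [mu_integ z hfc] at this

theorem bary_of_ge {X : Set ((I →₀ ℕ) → ℝ)} (hconv : Convex ℝ X) (μ ρ : @Measure X (borel X))
    (x : (I →₀ ℕ) → ℝ) (hb : IsBarycenter μ x) (hle : ChoquetLE μ ρ) : IsBarycenter ρ x := by
  intro ℓ
  have h1 := hle (fun y => ℓ y) ℓ.continuous.continuousOn (ℓ.toLinearMap.convexOn hconv)
  have h2 := hle (fun y => (-ℓ) y) (-ℓ).continuous.continuousOn ((-ℓ).toLinearMap.convexOn hconv)
  rw [hb ℓ] at h1
  rw [hb (-ℓ)] at h2
  have h3 : integ ρ (fun y : X => (-ℓ) (y : (I →₀ ℕ) → ℝ)) = - integ ρ (fun y : X => ℓ y) := by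
    letI : MeasurableSpace X := borel X
    exact integral_neg (fun y : X => ℓ y)
  rw [h3] at h2
  simp only [ContinuousLinearMap.neg_apply] at h2
  linarith

theorem mu_max (x : XX I) : IsMaximalMeasure (mu x) := by
  refine ⟨mu_radon x, fun ρ hρ hle => ?_⟩
  have hb : IsBarycenter ρ (x : (I →₀ ℕ) → ℝ) := bary_of_ge XX_convex _ _ _ (mu_bary x) hle
  exact choquet_antisymm XX_compact XX_convex ρ (mu x) hρ (mu_radon x) (le_mu ρ hρ x hb) hle

theorem XX_simplex : IsSimplex (XX I) := by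
  intro x hx
  refine ⟨mu ⟨x, hx⟩, ⟨mu_max _, mu_bary _⟩, ?_⟩
  rintro μ ⟨⟨hμ, hmax⟩, hb⟩
  exact (hmax _ (mu_radon ⟨x, hx⟩) (le_mu μ hμ ⟨x, hx⟩ hb)).symm

end Pool.Agent.H810R3.Sx
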